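import Pool.Agent.N389.AS.Three
import Pool.Agent.Results.MP_b30443_co.BlockSymmetric
import Pool.Agent.H287R3.RA.APb

/-!
# Progression-free sets which are decided by an additive statistic

An additive statistic of the words `x` of length `n` is a function `∑ i, f i (x i)` with values in an
abelian group, where the `f i` are arbitrary functions of the letters. We determine the exponential
growth rate of the largest `k`-AP-free subsets of `F_p^{dn}` (words of `n` blocks of length `d`) which
are decided by the value of an additive statistic of the blocks with few values.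

Proof. If `A` is such a set and large then `A` shatters a box: there are many coordinates `i`, and for
each of them a set of `M + 1` letters, such that the projection of `A` contains the product of these
sets. By the improved sunflower lemma (in the form of robust sunflowers) there are many disjoint
nonempty sets of these coordinates on which the sums of the `f i` agree, simultaneously for all
letters. On these sets one places the progressions of a balanced weight. The result is a nontrivial
progression of words with the same value of the statistic, the first of which is in `A`. For cap sets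
one needs three such sets of coordinates only, and the method of Naslund and Sawin finds them in
linearly many coordinates.
-/

set_option autoImplicit false
set_option linter.unusedSectionVars false

namespace Pool.Agent.Results.MP_b30443_co.AdditiveStatistics

open Finset Filter Topology

/-- A set `A` of words of length `n` over the alphabet `F_p^d` (a subset of `F_p^{dn}`) without
nontrivial `k`-term progression. -/
def BlockAPFree (k p d n : ℕ) (A : Finset (Fin n → Fin d → ZMod p)) : Prop :=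
  ∀ x y : Fin n → Fin d → ZMod p, (∀ i : ℕ, i < k → x + i • y ∈ A) → y = 0

/-- `A ⊆ F_p^n` contains no nontrivial `k`-term progression `x, x+y, …, x+(k-1)y` with `y ≠ 0`. -/
def APFree (k p n : ℕ) (A : Finset (Fin n → ZMod p)) : Prop :=
  ∀ x y : Fin n → ZMod p, (∀ i : ℕ, i < k → x + i • y ∈ A) → y = 0

/-- `r_k(F_p^n)`: the largest size of a subset of `F_p^n` without nontrivial `k`-term
progressions. -/
noncomputable def r (k p n : ℕ) : ℕ :=
  sSup {m : ℕ | ∃ A : Finset (Fin n → ZMod p), APFree k p n A ∧ A.card = m}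

/-- `A` is decided by an additive statistic with at most `V` values: there are an abelian group `G`,
functions `f i` from the alphabet to `G` such that `∑ i, f i (x i)` has at most `V` values, and a
set `D` of values such that `A` consists of the words whose value is in `D`. -/
def Decided {X : Type} (V : ℕ) {n : ℕ} (A : Finset (Fin n → X)) : Prop :=
  ∃ (G : Type) (_ : AddCommGroup G) (f : Fin n → X → G) (D : Set G),
    (Set.range fun x : Fin n → X => ∑ i, f i (x i)).ncard ≤ V ∧
    ∀ x, x ∈ A ↔ ∑ i, f i (x i) ∈ D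

/-- `S ⊆ F_p^d` carries a balanced weight: a function `w ≠ 0` with values in `ℕ` on the pairs
`(a, y)` with `y ≠ 0` and `a, a + y, …, a + (k - 1) y ∈ S` such that for all `s` the sum of
`w (a, y)` over the pairs with `a + i y = s` is the same for `i = 0, …, k - 1`. -/
def Balanced (k p d : ℕ) [NeZero p] (S : Finset (Fin d → ZMod p)) : Prop :=
  ∃ w : (Fin d → ZMod p) × (Fin d → ZMod p) → ℕ, (∃ q, w q ≠ 0) ∧
    (∀ q, w q ≠ 0 → q.2 ≠ 0 ∧ ∀ i : ℕ, i < k → q.1 + i • q.2 ∈ S) ∧
    ∀ i : ℕ, i < k → ∀ s : Fin d → ZMod p, (∑ q, if q.1 + i • q.2 = s then w q else 0) =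
      ∑ q, if q.1 = s then w q else 0

/-- The largest size of a subset of `F_p^d` that carries no balanced weight. -/
noncomputable def M (k p d : ℕ) [NeZero p] : ℕ :=
  sSup {m : ℕ | ∃ S : Finset (Fin d → ZMod p), ¬ Balanced k p d S ∧ S.card = m}

section

variable {p : ℕ} [hpf : Fact p.Prime]

/-- the terms of a progression -/
def Ft (k p d : ℕ) : Fin k → (Fin d → ZMod p) × (Fin d → ZMod p) → (Fin d → ZMod p) :=
  fun i q => q.1 + (i : ℕ) • q.2

/-- nontrivial progressions -/
def ntt (p d : ℕ) (q : (Fin d → ZMod p) × (Fin d → ZMod p)) : Prop := q.2 ≠ 0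

lemma balanced_iff (k d : ℕ) (hk : 1 ≤ k) (S : Finset (Fin d → ZMod p)) :
    Balanced k p d S ↔ TH197.Sym.Balanced (Ft k p d) (ntt p d) S := by
  constructor
  · rintro ⟨w, h1, h2, h3⟩
    refine ⟨w, h1, fun q hq => ⟨(h2 q hq).1, fun i => (h2 q hq).2 i i.2⟩, ?_⟩
    intro i j s
    have hi := h3 i i.2 s
    have hj := h3 j j.2 s
    exact hi.trans hj.symm
  · rintro ⟨w, h1, h2, h3⟩
    refine ⟨w, h1, fun q hq => ⟨(h2 q hq).1, fun i hi => (h2 q hq).2 ⟨i, hi⟩⟩, ?_⟩
    intro i hi s
    have h := h3 ⟨i, hi⟩ ⟨0, hk⟩ s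
    simpa [Ft] using h

lemma M_eq (k d : ℕ) : M k p d = MP_b30443_co.BlockSymmetric.M k p d := rfl

lemma r_eq (k d : ℕ) : r k p d = MP_b30443_co.BlockSymmetric.r k p d := rfl

lemma hτ (k d : ℕ) (i : Fin k) (v : Fin d → ZMod p) : Ft k p d i (v, 0) = v := by
  simp [Ft]

lemma free_of (k d n : ℕ) {A : Finset (Fin n → Fin d → ZMod p)} (hA : BlockAPFree k p d n A) :
    TH197.Sym.Free (Ft k p d) (ntt p d) A := by
  intro q hq c hc
  have h1 := hA (fun c => (q c).1) (fun c => (q c).2) (fun i hi => hq ⟨i, hi⟩)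
  exact hc (congrFun h1 c)

lemma of_free (k d n : ℕ) {A : Finset (Fin n → Fin d → ZMod p)}
    (hA : TH197.Sym.Free (Ft k p d) (ntt p d) A) : BlockAPFree k p d n A := by
  intro x y hxy
  funext c
  by_contra hc
  exact hA (fun c => (x c, y c)) (fun i => hxy i i.2) c hc

lemma hmax (k d : ℕ) (hk : 1 ≤ k) (S : Finset (Fin d → ZMod p))
    (hS : ¬ TH197.Sym.Balanced (Ft k p d) (ntt p d) S) : S.card ≤ M k p d := by
  rw [M_eq]
  exact MP_b30443_co.BlockSymmetric.le_M (fun h => hS ((balanced_iff k d hk S).1 h))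

/-- the value of `M` for three-term progressions in `F_p` -/
lemma M_three (hp2 : p ≠ 2) (hp3 : 3 ≤ p) : M 3 p 1 = (p + 1) / 2 := by
  have hpp : p.Prime := Fact.out
  obtain ⟨h, hph⟩ : ∃ h, p + 1 = 2 * h := by
    obtain ⟨k, hk⟩ := hpp.eq_two_or_odd'.resolve_left hp2
    exact ⟨k + 1, by omega⟩
  have hh : (p + 1) / 2 = h := by omega
  apply le_antisymm
  · obtain ⟨S, hS, hc⟩ := MP_b30443_co.BlockSymmetric.exists_M (p := p) 3 1 (by norm_num)
    obtain ⟨C, hC⟩ := H287R3.RA.AP.upper (p := p) h hph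
    have h1 : ∀ n : ℕ, 1 ≤ n → (M 3 p 1) ^ n ≤ (n + 1) ^ p * (C * n ^ C * h ^ n) := by
      intro n hn
      obtain ⟨A, hA, hSy, hcard⟩ := TH197.Sym.lower (F := Ft 3 p 1) (nt := ntt p 1)
        (by
          rintro ⟨v, z⟩ hq i j
          have hz : z = 0 := by
            by_contra hz
            exact hq hz
          subst hz
          rw [hτ, hτ]) 0 S (fun hb => hS ((balanced_iff 3 1 (by norm_num) S).2 hb)) n
      rw [hc, Fintype.card_fun, Fintype.card_fin, ZMod.card, pow_one] at hcard
      refine hcard.trans (Nat.mul_le_mul_left _ ?_)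
      -- transport to `Fin n → ZMod p`
      set e : (Fin n → Fin 1 → ZMod p) ≃ (Fin n → ZMod p) :=
        Equiv.arrowCongr (Equiv.refl _) (Equiv.funUnique (Fin 1) (ZMod p)) with he
      have he' : ∀ x c, e x c = x c 0 := by
        intro x c
        rfl
      have h2 := hC n (A.map e.toEmbedding) hn (by
        intro x y h0 h1 h2
        have hA' := of_free 3 1 n hA (e.symm x) (e.symm y) (by
          have e1 : ∀ x : Fin n → ZMod p, x ∈ A.map e.toEmbedding ↔ e.symm x ∈ A := by
            intro x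
            exact Finset.mem_map_equiv
          intro i hi
          have h3 : e.symm x + i • e.symm y = e.symm (x + i • y) := by
            apply e.injective
            rw [Equiv.apply_symm_apply]
            funext c
            rw [he']
            have a1 : e (e.symm x) c = x c := by rw [Equiv.apply_symm_apply]
            have a2 : e (e.symm y) c = y c := by rw [Equiv.apply_symm_apply]
            rw [he'] at a1 a2
            simp [a1, a2]
          rw [h3, ← e1]
          interval_cases i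
          · simpa using h0
          · simpa using h1
          · exact h2)
        have : y = e (e.symm y) := by rw [Equiv.apply_symm_apply]
        rw [this, hA']
        funext c
        rfl) (by
        intro σ x hx
        rw [Finset.mem_map_equiv] at hx ⊢
        exact hSy σ _ hx)
      rwa [Finset.card_map] at h2
    rw [hh]
    by_contra hcon
    push Not at hcon
    have h2 : ∀ N : ℕ, 1 ≤ N → ((M 3 p 1 : ℕ) : ℝ) ^ N ≤
        ((N : ℝ) + 1) ^ (p + C + C) * ((h : ℕ) : ℝ) ^ N := by
      intro N hN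
      have h3 : ((M 3 p 1 : ℕ) : ℝ) ^ N ≤ ((N : ℝ) + 1) ^ p * (C * (N : ℝ) ^ C * (h : ℝ) ^ N) := by
        exact_mod_cast h1 N hN
      have hN1 : (1 : ℝ) ≤ N := by exact_mod_cast hN
      have h4 : (C : ℝ) ≤ ((N : ℝ) + 1) ^ C := by
        have h5 : (C : ℝ) ≤ 2 ^ C := by exact_mod_cast (Nat.lt_two_pow_self (n := C)).le
        exact h5.trans (pow_le_pow_left₀ (by norm_num) (by linarith) C)
      have h5 : (N : ℝ) ^ C ≤ ((N : ℝ) + 1) ^ C :=
        pow_le_pow_left₀ (by linarith) (by linarith) C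
      calc ((M 3 p 1 : ℕ) : ℝ) ^ N ≤ ((N : ℝ) + 1) ^ p * (C * (N : ℝ) ^ C * (h : ℝ) ^ N) := h3
        _ ≤ ((N : ℝ) + 1) ^ p * (((N : ℝ) + 1) ^ C * ((N : ℝ) + 1) ^ C * (h : ℝ) ^ N) := by
            gcongr
        _ = _ := by ring
    have h3 := MP_b30443_co.BlockSymmetric.le_of_pow_le (Nat.cast_nonneg h) h2
    have h4 : M 3 p 1 ≤ h := by exact_mod_cast h3
    omega
  · have h1 := MP_b30443_co.BlockSymmetric.M_lower (p := p) 3 1 le_rfl hp3
    rw [← M_eq, pow_one] at h1
    refine le_trans ?_ h1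
    omega

/-- the value of `M` for full lines in `F_p` -/
lemma M_line (hp3 : 3 ≤ p) : M p p 1 = p - 1 := by
  apply le_antisymm
  · have h1 := MP_b30443_co.BlockSymmetric.M_upper (p := p) p 1 hp3 le_rfl le_rfl
    rw [← M_eq, pow_one] at h1
    have h2 : M p p 1 < p := by
      by_contra hcon
      push Not at hcon
      have : (p - 1) ^ 2 * p ≤ (p - 1) ^ 2 * M p p 1 := Nat.mul_le_mul_left _ hcon
      have h3 : ((p - 1) ^ 2 - 1) * p ≤ (p - 1) ^ 2 * p := Nat.mul_le_mul_right _ (by omega)
      omega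
    omega
  · have h1 := MP_b30443_co.BlockSymmetric.M_lower (p := p) p 1 hp3 le_rfl
    rw [← M_eq, pow_one] at h1
    refine le_trans ?_ h1
    have h2 : p / ((p + 1) / 2) ≤ 1 := by
      have hodd : p / 2 + 1 ≤ (p + 1) / 2 ∨ p = 2 ∨ p % 2 = 0 := by omega
      have hpp : p.Prime := Fact.out
      rcases hpp.eq_two_or_odd with h | h
      · omega
      · have h3 : p < 2 * ((p + 1) / 2) := by omega
        have h4 : p / ((p + 1) / 2) < 2 := by
          rw [Nat.div_lt_iff_lt_mul (by omega)]
          exact h3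
        omega
    omega

end

/-- every set of more than `M 3 3 d` letters contains a line -/
lemma patt_line (d : ℕ) (Λ : Finset (Fin d → ZMod 3)) (hΛ : Λ.card = M 3 3 d + 1) :
    N389.AS.Patt (Ft 3 3 d) (ntt 3 d) 0 Λ
      fun V => 200 * N389.AS.ell (Fintype.card (Fin d → ZMod 3)) V := by
  have : Fact (Nat.Prime 3) := ⟨Nat.prime_three⟩
  have hb : Balanced 3 3 d Λ := by
    by_contra hb
    have := MP_b30443_co.BlockSymmetric.le_M (p := 3) (k := 3) (d := d) hb
    rw [← M_eq] at this
    omega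
  obtain ⟨w, ⟨q, hq⟩, hsup, _⟩ := hb
  obtain ⟨hy, hmem⟩ := hsup q hq
  obtain ⟨a, y⟩ := q
  have h3 : (3 : ℕ) • y = 0 := by
    funext c
    have h3 : ((3 : ℕ) : ZMod 3) = 0 := rfl
    rw [Pi.smul_apply, nsmul_eq_mul, h3, zero_mul, Pi.zero_apply]
  set L : ℕ → Fin d → ZMod 3 := fun m => a + m • y with hL
  have hL3 : ∀ m, L (m + 3) = L m := by
    intro m
    simp only [hL]
    rw [add_nsmul, h3, add_zero]
  have hF : ∀ (i s : Fin 3), Ft 3 3 d i (a + (s : ℕ) • y, y) = L (s + i) := by
    intro i s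
    simp only [hL, Ft]
    rw [add_nsmul, add_assoc]
  have hLm : ∀ m, m < 3 → L m ∈ Λ := hmem
  refine N389.AS.patt_three 0 (fun v => (v, 0)) (hτ 3 d) Λ (fun s => (a + (s : ℕ) • y, y))
    (fun _ => hy) ?_ ?_
  · intro s i
    rw [hF]
    by_cases h : (s : ℕ) + i < 3
    · exact hLm _ h
    · obtain ⟨m, hm⟩ : ∃ m, (s : ℕ) + i = m + 3 := ⟨s + i - 3, by omega⟩
      rw [hm, hL3]
      exact hLm m (by omega)
  · intro G _ φ i
    simp only [hF]
    rw [Fin.sum_univ_three, Fin.sum_univ_three]
    have e3 : L 3 = L 0 := hL3 0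
    have e4 : L 4 = L 1 := hL3 1
    fin_cases i
    · rfl
    · show φ (L 1) + φ (L 2) + φ (L 3) = φ (L 0) + φ (L 1) + φ (L 2)
      rw [e3]
      abel
    · show φ (L 2) + φ (L 3) + φ (L 4) = φ (L 0) + φ (L 1) + φ (L 2)
      rw [e3, e4]
      abel

/-- Let `p ≥ k ≥ 3` with `p` prime, let `d ≥ 1` and let `M = M k p d` be the largest size of a subset
of `F_p^d` without a balanced weight. We consider the `k`-AP-free sets `A ⊆ F_p^{dn}` which are
decided by an additive statistic of the `n` blocks of length `d` with at most `V` values.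

1. There is a constant `C` with `|A| ≤ M^n exp (C (1 + log V) log (2 + log V) log (n + 1))`.
2. For every `ε > 0` there are `δ > 0` and `n₀` such that `|A| ≤ (M + ε)^n` if
   `V ≤ exp (δ n / log n)` and `n ≥ n₀`.
3. For every `n` there is such a set with `V = (n + 1)^{p^d}` and `|A| ≥ M^n / (n + 1)^{p^d}`.
4. `M = r_p(F_p^d)` if `k = p`; `M = (p + 1) / 2` if `k = 3` and `d = 1`; `M = p - 1` if `k = p` and
   `d = 1`.
5. If `k = p = 3` (cap sets, `M = r_3(F_3^d)`, and `M = 2` if `d = 1`) then
   `|A| ≤ M^n exp (C (1 + log V) log (n + 1))` for a constant `C`, and for every `ε > 0` there are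
   `δ > 0` and `n₀` such that `|A| ≤ (M + ε)^n` if `V ≤ exp (δ n)` and `n ≥ n₀`. -/
theorem result (k p d : ℕ) [Fact p.Prime] (hk : 3 ≤ k) (hkp : k ≤ p) (_hd : 1 ≤ d) :
    (∃ C : ℝ, 0 < C ∧ ∀ (n V : ℕ) (A : Finset (Fin n → Fin d → ZMod p)), 1 ≤ n →
      BlockAPFree k p d n A → Decided V A →
      (A.card : ℝ) ≤ (M k p d : ℝ) ^ n *
        Real.exp (C * (1 + Real.log V) * Real.log (2 + Real.log V) * Real.log (n + 1))) ∧
    (∀ ε : ℝ, 0 < ε → ∃ δ : ℝ, 0 < δ ∧ ∃ n₀ : ℕ, ∀ (n V : ℕ)
      (A : Finset (Fin n → Fin d → ZMod p)), n₀ ≤ n → BlockAPFree k p d n A → Decided V A →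
      (V : ℝ) ≤ Real.exp (δ * n / Real.log n) → (A.card : ℝ) ≤ (M k p d + ε) ^ n) ∧
    (∀ n : ℕ, ∃ A : Finset (Fin n → Fin d → ZMod p), BlockAPFree k p d n A ∧
      Decided ((n + 1) ^ p ^ d) A ∧ M k p d ^ n ≤ (n + 1) ^ p ^ d * A.card) ∧
    (M p p d = r p p d ∧ M 3 p 1 = (p + 1) / 2 ∧ M p p 1 = p - 1) ∧
    (k = 3 → p = 3 →
      (∃ C : ℝ, 0 < C ∧ ∀ (n V : ℕ) (A : Finset (Fin n → Fin d → ZMod p)), 1 ≤ n →
        BlockAPFree k p d n A → Decided V A →
        (A.card : ℝ) ≤ (M k p d : ℝ) ^ n *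
          Real.exp (C * (1 + Real.log V) * Real.log (n + 1))) ∧
      ∀ ε : ℝ, 0 < ε → ∃ δ : ℝ, 0 < δ ∧ ∃ n₀ : ℕ, ∀ (n V : ℕ)
        (A : Finset (Fin n → Fin d → ZMod p)), n₀ ≤ n → BlockAPFree k p d n A → Decided V A →
        (V : ℝ) ≤ Real.exp (δ * n) → (A.card : ℝ) ≤ (M k p d + ε) ^ n) := by
  have hpp : p.Prime := Fact.out
  refine ⟨?_, ?_, ?_, ⟨?_, M_three (by omega) (by omega), M_line (by omega)⟩, ?_⟩
  · obtain ⟨C, hC, H⟩ := N389.AS.quasi (F := Ft k p d) (nt := ntt p d) ⟨0, by omega⟩
      (fun v => (v, 0)) (hτ k d) (M k p d)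
      (MP_b30443_co.BlockSymmetric.one_le_M (p := p) k d (by omega)) (hmax k d (by omega))
    exact ⟨C, hC, fun n V A hn hA hD => H n V A hn (free_of k d n hA) hD⟩
  · intro ε hε
    obtain ⟨δ, hδ, n₀, H⟩ := N389.AS.expo (F := Ft k p d) (nt := ntt p d) ⟨0, by omega⟩
      (fun v => (v, 0)) (hτ k d) (M k p d) (hmax k d (by omega)) hε
    exact ⟨δ, hδ, n₀, fun n V A hn hA hD hV => H n V A hn (free_of k d n hA) hD hV⟩
  · intro n
    obtain ⟨S, hS, hc⟩ := MP_b30443_co.BlockSymmetric.exists_M (p := p) k d (by omega)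
    obtain ⟨A, hA, hSy, hcard⟩ := TH197.Sym.lower (F := Ft k p d) (nt := ntt p d)
      (by
        rintro ⟨v, z⟩ hq i j
        have hz : z = 0 := by
          by_contra hz
          exact hq hz
        subst hz
        rw [hτ, hτ]) ⟨0, by omega⟩ S (fun hb => hS ((balanced_iff k d (by omega) S).2 hb)) n
    have hX : Fintype.card (Fin d → ZMod p) = p ^ d := MP_b30443_co.BlockSymmetric.card_G d
    rw [hc, hX] at hcard
    refine ⟨A, of_free k d n hA, ?_, hcard⟩
    have h := N389.AS.dec_of_symm hSy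
    rwa [hX] at h
  · apply le_antisymm
    · exact MP_b30443_co.BlockSymmetric.M_le_r (p := p) p d (by omega)
    · exact MP_b30443_co.BlockSymmetric.r_le_M (p := p) p d (by omega)
  · rintro rfl rfl
    constructor
    · obtain ⟨C, hC, H⟩ := N389.AS.quasi_three (F := Ft 3 3 d) (nt := ntt 3 d) 0 (M 3 3 d)
        (MP_b30443_co.BlockSymmetric.one_le_M (p := 3) 3 d (by omega)) (patt_line d)
      exact ⟨C, hC, fun n V A hn hA hD => H n V A hn (free_of 3 d n hA) hD⟩
    · intro ε hε
      obtain ⟨δ, hδ, n₀, H⟩ := N389.AS.expo_three (F := Ft 3 3 d) (nt := ntt 3 d) 0 (M 3 3 d)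
        (patt_line d) hε
      exact ⟨δ, hδ, n₀, fun n V A hn hA hD hV => H n V A hn (free_of 3 d n hA) hD hV⟩

end Pool.Agent.Results.MP_b30443_co.AdditiveStatistics
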