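import Pool.Agent.N381.AC.Poly
import Pool.Agent.N381.AC.Rel
import Pool.Agent.Helper868.DHJ

set_option autoImplicit false

/-!
# Progression-free sets in `F_p^n` and circuits of constant depth

(1) Let `A ⊆ F_p^n` contain no `k`-term progression whose common difference is a nonzero vector in
`{0, 1}^n`. If `A` is the support of a polynomial of degree `q`, over any field, in the indicator
functions of `T` sets decided by circuits of depth `d` with at most `2 ^ ℓ` nodes, then
`|A| ≤ 4 (4 ^ (k q ℓ) + k T) p ^ n 2 ^ (- n / (2 (k q (d + 1) + 1) loss))` with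
`loss = (2 ^ (d + 10) w ℓ) ^ (d + 1)`. (2) So this holds for unions, and for AND/OR circuits with one
counting gate at the top: modulo a prime, or inequality to a threshold.
(3), (4) *Every* progression-free set has small relative density in every set `F` decided by such a
circuit, even if `F` has only `p ^ n 2 ^ (- c n / loss)` elements.

Proof of (1). Take a random restriction `ρ` of the `n` coordinates and a random point `x`. Let
`u = u(j, ρ, x)` be the point with `u + j 1_{S} = x` where `S` is the set of the coordinates which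
`ρ` fixes to `1`. For fixed `j` and `ρ` the map `x ↦ u` is a bijection, so the Boolean circuits
`b ↦ C(u + j b)` are typical, and by the multi-switching lemma all of them have small decision trees
after `ρ`. The functions `y ↦ [x + j 1_{W(y)} ∈ A]` on the free subcube are supports of polynomials
of small degree, hence their product (`j < k`) as well; if `x ∈ A` the product is supported at one
point, which needs full degree. Proof of (3). For random points `u, v` the circuit `b ↦ C(u or v)`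
is Boolean and its total sensitivity is small; the average gives a bound for the number of the
pairs (point of `F`, change of one letter in a block) that leave `F`. So random changes of a block
of `m` letters rarely leave `F`, while they meet `A` with probability at most `r_k(F_p^m) / p^m`.
-/

namespace Pool.Agent.Results.MP_b30443_co.ConstantDepthCircuits

open Finset hiding ext dens
open Function
open Pool.Agent.N381.AC
open Pool.Agent.Helper868.DHJ (LineFree dens pt ind av av_eq_sum density_hales_jewett)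

/-- `A` contains no nontrivial `k`-term progression `x, x + y, …, x + (k - 1) y`. -/
def APFree (k : ℕ) {p n : ℕ} (A : Finset (Fin n → ZMod p)) : Prop :=
  ∀ x y : Fin n → ZMod p, (∀ j : ℕ, j < k → x + j • y ∈ A) → y = 0

/-- `A` contains no nontrivial `k`-term progression whose common difference has all coordinates in
`{0, 1}`. -/
def BinaryAPFree (k : ℕ) {p n : ℕ} (A : Finset (Fin n → ZMod p)) : Prop :=
  ∀ x y : Fin n → ZMod p, (∀ i, y i = 0 ∨ y i = 1) → (∀ j : ℕ, j < k → x + j • y ∈ A) → y = 0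

/-- `F` is decided by a circuit of depth at most `d` (the input tests have depth `≥ 0`), the number
of whose nodes plus `n` is at most `2 ^ ℓ`. The nodes are arbitrary tests of one coordinate, AND and
OR gates of any number of wires and arbitrary gates with at most `w` wires; negations are free. -/
def Decided (w ℓ d : ℕ) {p n : ℕ} (F : Finset (Fin n → ZMod p)) : Prop :=
  ∃ (C : Circuit w (ZMod p) n) (o : C.Node), n + Nat.card C.Node ≤ 2 ^ ℓ ∧
    (∀ v, C.depth v ≤ d) ∧ ∀ x, x ∈ F ↔ C.val o x = true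

/-- `A` is the support of a polynomial of total degree at most `q`, over some field, in the
indicator functions of `T` sets decided by circuits. -/
def SupportOf (w ℓ d T q : ℕ) {p n : ℕ} (A : Finset (Fin n → ZMod p)) : Prop :=
  ∃ (K : Type) (_ : Field K) (F : Fin T → Finset (Fin n → ZMod p)) (P : MvPolynomial (Fin T) K),
    (∀ i, Decided w ℓ d (F i)) ∧ P.totalDegree ≤ q ∧
    ∀ x, x ∈ A ↔ MvPolynomial.eval (fun i => if x ∈ F i then (1 : K) else 0) P ≠ 0

/-- `(2 ^ (d + 10) w ℓ) ^ (d + 1)` -/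
def loss (w ℓ d : ℕ) : ℕ := (2 ^ (d + 10) * (w * ℓ)) ^ (d + 1)

/-- `4 (4 ^ (k q ℓ) + k T) p ^ n 2 ^ (- n / (2 (k q (d + 1) + 1) loss))` -/
noncomputable def bound (p k n w ℓ d T q : ℕ) : ℝ :=
  4 * (4 ^ (k * q * ℓ) + k * T) * (p : ℝ) ^ n *
    (2 : ℝ) ^ (-((n : ℝ) / (2 * (k * q * (d + 1) + 1) * loss w ℓ d)))

/-- the number of the sets `F i` which contain `x` -/
def count {p n T : ℕ} (F : Fin T → Finset (Fin n → ZMod p)) (x : Fin n → ZMod p) : ℕ :=
  (univ.filter fun i => x ∈ F i).card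

theorem main {p k n w ℓ d T q : ℕ} (hp : p.Prime) (hw : 1 ≤ w) (hℓ : 1 ≤ ℓ)
    (A : Finset (Fin n → ZMod p)) (hA : BinaryAPFree k A) (h : SupportOf w ℓ d T q A) :
    (A.card : ℝ) ≤ bound p k n w ℓ d T q := by
  classical
  have : NeZero p := ⟨hp.ne_zero⟩
  have : Fact p.Prime := ⟨hp⟩
  obtain ⟨K, _, F, P, hF, hP, hval⟩ := h
  choose C o hs hd hC using hF
  have h1 := poly_bound (K := K) (k := k) (L := ZMod p) hℓ hw
    (fun j _ => Equiv.addRight ((j : ℕ) : ZMod p)) A (by
      intro x W hW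
      have h2 := hA x (fun v => if v ∈ W then 1 else 0) (fun v => by
        by_cases hv : v ∈ W <;> simp [hv]) (by
        intro j hj
        have h3 := hW ⟨j, hj⟩
        have h4 : mix (fun _ : Fin n => Equiv.addRight (((⟨j, hj⟩ : Fin k) : ℕ) : ZMod p)) W x =
            x + j • (fun v => if v ∈ W then (1 : ZMod p) else 0) := by
          funext v
          by_cases hv : v ∈ W <;> simp [mix, hv]
        rw [← h4]
        exact h3)
      ext v
      have h5 := congrFun h2 v
      by_cases hv : v ∈ W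
      · simp [hv] at h5
      · simp [hv]) C o hs hd P hP (by
      intro x
      rw [hval]
      have e : (fun i => if x ∈ F i then (1 : K) else 0) =
          fun i => if (C i).val (o i) x = true then (1 : K) else 0 := by
        funext i
        by_cases h : x ∈ F i
        · rw [if_pos h, if_pos ((hC i x).1 h)]
        · rw [if_neg h, if_neg fun hh => h ((hC i x).2 hh)]
      rw [e])
  rw [ZMod.card] at h1
  unfold bound loss
  push_cast
  exact h1

theorem eval_sum {p n T : ℕ} {K : Type} [Field K] (F : Fin T → Finset (Fin n → ZMod p))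
    (x : Fin n → ZMod p) :
    MvPolynomial.eval (fun i => if x ∈ F i then (1 : K) else 0) (∑ i, MvPolynomial.X i) =
      (count F x : K) := by
  rw [map_sum]
  simp only [MvPolynomial.eval_X]
  rw [count, card_filter]
  push_cast
  rfl

theorem deg_sum {T : ℕ} {K : Type} [Field K] (a : K) :
    (∑ i : Fin T, MvPolynomial.X i - MvPolynomial.C a : MvPolynomial (Fin T) K).totalDegree ≤ 1 := by
  refine (MvPolynomial.totalDegree_sub _ _).trans (max_le ?_ ?_)
  · refine (MvPolynomial.totalDegree_finsetSum_le fun i _ => ?_)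
    rw [MvPolynomial.totalDegree_X]
  · rw [MvPolynomial.totalDegree_C]
    exact Nat.zero_le _

theorem count_ne {p k n w ℓ d T : ℕ} (hp : p.Prime) (hw : 1 ≤ w) (hℓ : 1 ≤ ℓ)
    (A : Finset (Fin n → ZMod p)) (hA : BinaryAPFree k A) (F : Fin T → Finset (Fin n → ZMod p))
    (hF : ∀ i, Decided w ℓ d (F i)) (a : ℕ) (h : ∀ x, x ∈ A ↔ count F x ≠ a) :
    (A.card : ℝ) ≤ bound p k n w ℓ d T 1 := by
  refine main hp hw hℓ A hA ⟨ℚ, inferInstance, F, ∑ i, MvPolynomial.X i - MvPolynomial.C (a : ℚ),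
    hF, deg_sum _, fun x => ?_⟩
  rw [map_sub, eval_sum, MvPolynomial.eval_C, h, sub_ne_zero]
  exact_mod_cast Iff.rfl

theorem count_mod {p k n w ℓ d T : ℕ} (hp : p.Prime) (hw : 1 ≤ w) (hℓ : 1 ≤ ℓ)
    (A : Finset (Fin n → ZMod p)) (hA : BinaryAPFree k A) (F : Fin T → Finset (Fin n → ZMod p))
    (hF : ∀ i, Decided w ℓ d (F i)) (a s : ℕ) (hs : s.Prime)
    (h : ∀ x, x ∈ A ↔ count F x ≡ a [MOD s]) :
    (A.card : ℝ) ≤ bound p k n w ℓ d T (s - 1) := by
  have : Fact s.Prime := ⟨hs⟩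
  refine main hp hw hℓ A hA ⟨ZMod s, inferInstance, F,
    1 - (∑ i, MvPolynomial.X i - MvPolynomial.C (a : ZMod s)) ^ (s - 1), hF, ?_, fun x => ?_⟩
  · refine (MvPolynomial.totalDegree_sub _ _).trans (max_le ?_ ?_)
    · rw [MvPolynomial.totalDegree_one]
      exact Nat.zero_le _
    · refine (MvPolynomial.totalDegree_pow _ _).trans ?_
      calc (s - 1) * _ ≤ (s - 1) * 1 := Nat.mul_le_mul_left _ (deg_sum _)
        _ = s - 1 := mul_one _
  · rw [map_sub, map_one, map_pow, map_sub, eval_sum, MvPolynomial.eval_C, h]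
    have e : count F x ≡ a [MOD s] ↔ (count F x : ZMod s) - a = 0 := by
      rw [sub_eq_zero, ZMod.natCast_eq_natCast_iff]
    rw [e]
    constructor
    · intro h0
      rw [h0, zero_pow (by have := hs.two_le; omega), sub_zero]
      exact one_ne_zero
    · intro h1
      by_contra h0
      rw [ZMod.pow_card_sub_one_eq_one h0, sub_self] at h1
      exact h1 rfl

variable {p : ℕ}

theorem ext_add {n m : ℕ} (hm : 0 < m) (j : ℕ) (s t : Fin m → ZMod p) :
    ext n hm j (s + t) = ext n hm j s + ext n hm j t := by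
  funext i
  by_cases h : (i : ℕ) / m = j <;> simp [ext, h]

theorem ext_smul {n m : ℕ} (hm : 0 < m) (j : ℕ) (a : ℕ) (t : Fin m → ZMod p) :
    ext n hm j (a • t) = a • ext n hm j t := by
  funext i
  by_cases h : (i : ℕ) / m = j <;> simp [ext, h]

theorem ext_eq_zero {n m : ℕ} (hm : 0 < m) {j : ℕ} (hj : j < n / m) {s : Fin m → ZMod p}
    (h : ext n hm j s = 0) : s = 0 := by
  funext t
  have hlt : j * m + t < n := by
    have h1 : (j + 1) * m ≤ n / m * m := Nat.mul_le_mul_right _ hj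
    have h2 := Nat.div_mul_le_self n m
    have h3 := t.2
    have h4 : (j + 1) * m = j * m + m := by ring
    omega
  have h1 := congrFun h ⟨j * m + t, hlt⟩
  unfold ext at h1
  have e1 : (j * m + (t : ℕ)) / m = j := by
    rw [mul_comm, Nat.mul_add_div hm, Nat.div_eq_of_lt t.2, add_zero]
  have e2 : (j * m + (t : ℕ)) % m = t := by
    rw [mul_comm, Nat.mul_add_mod, Nat.mod_eq_of_lt t.2]
  simp only [e1, if_true, Pi.zero_apply] at h1
  have e3 : (⟨(j * m + (t : ℕ)) % m, Nat.mod_lt _ hm⟩ : Fin m) = t := Fin.ext e2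
  rw [e3] at h1
  exact h1

theorem slice_free {n m k : ℕ} (hm : 0 < m) (Qn : (Fin n → ZMod p) → Prop)
    (Qm : (Fin m → ZMod p) → Prop) (j : ℕ) (hj : j < n / m)
    (hQ : ∀ y, Qm y → Qn (ext n hm j y)) (A : Finset (Fin n → ZMod p))
    (hA : ∀ x y, Qn y → (∀ i : ℕ, i < k → x + i • y ∈ A) → y = 0)
    (z : Fin n → ZMod p) (B : Finset (Fin m → ZMod p)) (hB : ∀ t, t ∈ B ↔ z + ext n hm j t ∈ A)
    (x y : Fin m → ZMod p) (hy : Qm y) (h : ∀ i : ℕ, i < k → x + i • y ∈ B) : y = 0 := by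
  apply ext_eq_zero hm hj
  apply hA (z + ext n hm j x) _ (hQ y hy)
  intro i hi
  have h1 := (hB _).1 (h i hi)
  rw [ext_add, ext_smul, ← add_assoc] at h1
  exact h1

theorem relative {n m w ℓ d r : ℕ} (hp : p.Prime) (hw : 1 ≤ w) (hℓ : 1 ≤ ℓ) (hm : 0 < m)
    (Qn : (Fin n → ZMod p) → Prop) (Qm : (Fin m → ZMod p) → Prop) {k : ℕ}
    (hQ : ∀ j y, Qm y → Qn (ext n hm j y))
    (hr : ∀ B : Finset (Fin m → ZMod p),
      (∀ x y, Qm y → (∀ i : ℕ, i < k → x + i • y ∈ B) → y = 0) → B.card ≤ r)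
    (F A : Finset (Fin n → ZMod p)) (hF : Decided w ℓ d F)
    (hA : ∀ x y, Qn y → (∀ i : ℕ, i < k → x + i • y ∈ A) → y = 0) {ε : ℝ} (hε : 0 < ε) :
    ((A ∩ F).card : ℝ) ≤ (r / (p : ℝ) ^ m + ε) * F.card + m * ((p : ℝ) ^ n *
      (2 : ℝ) ^ (2 * ℓ + 4 - ε * (n / m : ℕ) / ((d + 1 : ℕ) * Y347.CO.KK (d + 1) w ℓ))) := by
  classical
  have : NeZero p := ⟨hp.ne_zero⟩
  obtain ⟨C, o, hs, hd, hC⟩ := hF
  have h := rel_add C hℓ hw hs hd o F hC A hm r (fun j hj z => hr _ (by
    intro x y hy h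
    exact slice_free hm Qn Qm j hj (hQ j) A hA z _ (fun t => by rw [mem_filter]; simp) x y hy h))
    hε
  rw [ZMod.card] at h
  exact h

theorem lineFree {k n : ℕ} (hp : p.Prime) {A : Finset (Fin n → ZMod p)} (hA : BinaryAPFree k A) :
    LineFree (A : Set (Fin n → ZMod p)) := by
  intro u hu
  have : Fact p.Prime := ⟨hp⟩
  obtain ⟨i0, hi0⟩ := hu
  by_contra hcon
  push Not at hcon
  have h := hA (pt u 0) (fun i => if u i = none then 1 else 0) (fun i => by
    by_cases h : u i = none <;> simp [h]) (by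
    intro j _
    have e : pt u 0 + j • (fun i => if u i = none then (1 : ZMod p) else 0) =
        pt u (j : ZMod p) := by
      funext i
      simp only [Pi.add_apply, Pi.smul_apply, pt]
      cases hi : u i <;> simp
    rw [e]
    exact hcon _)
  have := congrFun h i0
  simp [hi0] at this

theorem card_eq [NeZero p] (n : ℕ) (A : Finset (Fin n → ZMod p)) :
    (A.card : ℝ) = dens (A : Set (Fin n → ZMod p)) * (p : ℝ) ^ n := by
  classical
  unfold dens
  rw [av_eq_sum]
  have h1 : ∑ x, ind (A : Set (Fin n → ZMod p)) x = A.card := by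
    have : ∀ x, ind (A : Set (Fin n → ZMod p)) x = if x ∈ A then 1 else 0 := by
      intro x
      by_cases hx : x ∈ A <;> simp [ind, hx]
    simp [this]
  have h2 : (Fintype.card (Fin n → ZMod p) : ℝ) = (p : ℝ) ^ n := by
    rw [Fintype.card_fun, Fintype.card_fin, ZMod.card]
    push_cast
    rfl
  have hp : (0 : ℝ) < p := by exact_mod_cast NeZero.pos p
  rw [h1, h2]
  field_simp

theorem relative_c (hp : p.Prime) (δ : ℝ) (hδ : 0 < δ) :
    ∃ c : ℝ, 0 < c ∧ ∀ k n w ℓ d : ℕ, 1 ≤ w → 1 ≤ ℓ → ∀ F A : Finset (Fin n → ZMod p),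
      Decided w ℓ d F → BinaryAPFree k A →
      ((A ∩ F).card : ℝ) ≤ δ * F.card + (p : ℝ) ^ n *
        (2 : ℝ) ^ (2 * ℓ + 1 / c - c * n / ((d + 1 : ℕ) * Y347.CO.KK (d + 1) w ℓ)) := by
  classical
  have : NeZero p := ⟨hp.ne_zero⟩
  obtain ⟨N, hN⟩ := density_hales_jewett (ZMod p) (δ / 2) (half_pos hδ)
  obtain ⟨m, hmdef⟩ : ∃ m : ℕ, m = max N 1 := ⟨_, rfl⟩
  have hm1 : 1 ≤ m := by rw [hmdef]; exact le_max_right _ _
  have hmN : N ≤ m := by rw [hmdef]; exact le_max_left _ _
  obtain ⟨c, hc0, hcc⟩ := Y347.CO.num_c m hm1 m (δ / 2) (by exact_mod_cast hm1) (half_pos hδ)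
  refine ⟨c, hc0, fun k n w ℓ d hw hℓ F A hF hA => ?_⟩
  have hp0 : (0 : ℝ) < (p : ℝ) := by exact_mod_cast hp.pos
  have hX : (1 : ℝ) ≤ ((d + 1 : ℕ) : ℝ) * Y347.CO.KK (d + 1) w ℓ :=
    Y347.CO.one_le_dKK (Nat.succ_pos d) hw hℓ
  obtain ⟨h1, h2⟩ := hcc n (((d + 1 : ℕ) : ℝ) * Y347.CO.KK (d + 1) w ℓ) (2 * ℓ) hX (by positivity)
  have hpn : (0 : ℝ) < (p : ℝ) ^ n := by positivity
  rcases le_or_gt m n with hmn | hnm
  · have h3 := h1 hmn
    have h4 := relative (r := ⌊δ / 2 * (p : ℝ) ^ m⌋₊) hp hw hℓ hm1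
      (fun y : Fin n → ZMod p => ∀ i, y i = 0 ∨ y i = 1)
      (fun y : Fin m → ZMod p => ∀ i, y i = 0 ∨ y i = 1) (k := k) (by
        intro j y hy i
        by_cases h : (i : ℕ) / m = j
        · have e : ext n hm1 j y i = y ⟨(i : ℕ) % m, Nat.mod_lt _ hm1⟩ := by simp [ext, h]
          rw [e]
          exact hy _
        · left
          simp [ext, h]) (by
        intro B hB
        apply Nat.le_floor
        have h5 := hN (Fin m) (by rw [Fintype.card_fin]; exact hmN) (B : Set (Fin m → ZMod p))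
          (lineFree (k := k) hp hB)
        rw [card_eq]
        exact mul_le_mul_of_nonneg_right h5.le (by positivity)) F A hF hA (half_pos hδ)
    have h6 : ((⌊δ / 2 * (p : ℝ) ^ m⌋₊ : ℕ) : ℝ) / (p : ℝ) ^ m ≤ δ / 2 := by
      rw [div_le_iff₀ (by positivity)]
      exact Nat.floor_le (by positivity)
    have h7 : (((⌊δ / 2 * (p : ℝ) ^ m⌋₊ : ℕ) : ℝ) / (p : ℝ) ^ m + δ / 2) * (F.card : ℝ) ≤
        δ * F.card := mul_le_mul_of_nonneg_right (by linarith) (Nat.cast_nonneg _)
    have h8 := mul_le_mul_of_nonneg_left h3 hpn.le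
    have e : (m : ℝ) * ((p : ℝ) ^ n * (2 : ℝ) ^ (2 * ℓ + 4 - δ / 2 * (n / m : ℕ) /
        ((d + 1 : ℕ) * Y347.CO.KK (d + 1) w ℓ))) = (p : ℝ) ^ n * (m * (2 : ℝ) ^ (2 * ℓ + 4 -
        δ / 2 * (n / m : ℕ) / ((d + 1 : ℕ) * Y347.CO.KK (d + 1) w ℓ))) := by ring
    rw [e] at h4
    linarith
  · have h3 := h2 hnm
    have h4 := mul_le_mul_of_nonneg_left h3 hpn.le
    have h5 : ((A ∩ F).card : ℝ) ≤ (p : ℝ) ^ n := by
      have := card_le_univ (A ∩ F)
      rw [Fintype.card_pi, prod_const, card_univ, Fintype.card_fin, ZMod.card] at this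
      exact_mod_cast this
    have h6 : 0 ≤ δ * (F.card : ℝ) := by positivity
    linarith

/-- **Theorem.** Let `p` be a prime and `w, ℓ ≥ 1`.
(1) If `A ⊆ F_p^n` contains no `k`-term progression with a nonzero common difference in `{0, 1}^n`
and is the support of a polynomial of degree at most `q` over a field in `T` sets decided by
circuits of depth `d` and size `2 ^ ℓ`, then
`|A| ≤ 4 (4 ^ (k q ℓ) + k T) p ^ n 2 ^ (- n / (2 (k q (d + 1) + 1) loss))`.
(2) For sets `F_1, …, F_T` decided by such circuits this holds, with `q = 1`, if `A` is the union of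
the sets, more generally if `A` is the set of the points whose number of sets `F_i ∋ x` is not `a`;
and, with `q = s - 1`, if `A` is the set of the points for which this number is `≡ a` modulo a
prime `s`.
(3) Let `m ≥ 1` and suppose that subsets of `F_p^m` without nontrivial `k`-term progressions have at
most `r` elements. For every `F ⊆ F_p^n` decided by such a circuit, every `A ⊆ F_p^n` without
nontrivial `k`-term progressions and every `ε > 0`,
`|A ∩ F| ≤ (r / p ^ m + ε) |F| + m p ^ n 2 ^ (2 ℓ + 4 - ε ⌊n / m⌋ / ((d + 1) loss))`.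
(4) For every `δ > 0` there is `c > 0` such that for all `k, n, w, ℓ, d`, all such `F ⊆ F_p^n` and all
`A ⊆ F_p^n` without `k`-term progressions with a nonzero common difference in `{0, 1}^n`,
`|A ∩ F| ≤ δ |F| + p ^ n 2 ^ (2 ℓ + 1 / c - c n / ((d + 1) loss))`. -/
theorem result (p : ℕ) (hp : p.Prime) :
    (∀ k n w ℓ d T q : ℕ, 1 ≤ w → 1 ≤ ℓ → ∀ A : Finset (Fin n → ZMod p), BinaryAPFree k A →
      SupportOf w ℓ d T q A → (A.card : ℝ) ≤ bound p k n w ℓ d T q) ∧
    (∀ k n w ℓ d T : ℕ, 1 ≤ w → 1 ≤ ℓ → ∀ A : Finset (Fin n → ZMod p), BinaryAPFree k A →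
      ∀ F : Fin T → Finset (Fin n → ZMod p), (∀ i, Decided w ℓ d (F i)) →
        ((∀ x, x ∈ A ↔ ∃ i, x ∈ F i) → (A.card : ℝ) ≤ bound p k n w ℓ d T 1) ∧
        (∀ a, (∀ x, x ∈ A ↔ count F x ≠ a) → (A.card : ℝ) ≤ bound p k n w ℓ d T 1) ∧
        (∀ a s : ℕ, s.Prime → (∀ x, x ∈ A ↔ count F x ≡ a [MOD s]) →
          (A.card : ℝ) ≤ bound p k n w ℓ d T (s - 1))) ∧
    (∀ k n m w ℓ d r : ℕ, 1 ≤ w → 1 ≤ ℓ → 1 ≤ m →
      (∀ B : Finset (Fin m → ZMod p), APFree k B → B.card ≤ r) →
      ∀ F A : Finset (Fin n → ZMod p), Decided w ℓ d F → APFree k A → ∀ ε : ℝ, 0 < ε →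
        ((A ∩ F).card : ℝ) ≤ (r / (p : ℝ) ^ m + ε) * F.card + m * (p : ℝ) ^ n *
          (2 : ℝ) ^ (2 * ℓ + 4 - ε * (n / m : ℕ) / ((d + 1) * loss w ℓ d) : ℝ)) ∧
    (∀ δ : ℝ, 0 < δ → ∃ c : ℝ, 0 < c ∧ ∀ k n w ℓ d : ℕ, 1 ≤ w → 1 ≤ ℓ →
      ∀ F A : Finset (Fin n → ZMod p), Decided w ℓ d F → BinaryAPFree k A →
        ((A ∩ F).card : ℝ) ≤ δ * F.card +
          (p : ℝ) ^ n * (2 : ℝ) ^ (2 * ℓ + 1 / c - c * n / ((d + 1) * loss w ℓ d) : ℝ)) := by
  have hloss : ∀ w ℓ d : ℕ, ((d : ℝ) + 1) * ((loss w ℓ d : ℕ) : ℝ) =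
      ((d + 1 : ℕ) : ℝ) * Y347.CO.KK (d + 1) w ℓ := by
    intro w ℓ d
    rw [loss, Y347.CO.KK, Nat.cast_add, Nat.cast_one]
  refine ⟨fun k n w ℓ d T q hw hℓ A hA h => main hp hw hℓ A hA h, ?_, ?_, ?_⟩
  · intro k n w ℓ d T hw hℓ A hA F hF
    refine ⟨fun h => ?_, fun a h => count_ne hp hw hℓ A hA F hF a h,
      fun a s hs h => count_mod hp hw hℓ A hA F hF a s hs h⟩
    refine count_ne hp hw hℓ A hA F hF 0 fun x => ?_
    rw [h, count, card_ne_zero, filter_nonempty_iff]
    simp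
  · intro k n m w ℓ d r hw hℓ hm hr F A hF hA ε hε
    rw [hloss, mul_assoc]
    refine relative hp hw hℓ hm (fun _ : Fin n → ZMod p => True) (fun _ => True) (k := k)
      (fun _ _ _ => trivial) (fun B hB => hr B fun x y h => hB x y trivial h) F A hF
      (fun x y _ h => hA x y h) hε
  · intro δ hδ
    obtain ⟨c, hc, h⟩ := relative_c hp δ hδ
    refine ⟨c, hc, fun k n w ℓ d hw hℓ F A hF hA => ?_⟩
    rw [hloss]
    exact h k n w ℓ d hw hℓ F A hF hA

end Pool.Agent.Results.MP_b30443_co.ConstantDepthCircuits
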