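import Pool.Agent.H387.AP.T4P7
import Pool.Agent.H387.AP.T5P7
import Pool.Agent.H387.AP.T4P11
import Pool.Agent.H387.AP.T5P11
import Pool.Agent.H387.AP.T6P11
import Pool.Agent.H387.AP.T7P11
import Pool.Agent.H387.AP.T8P11
import Pool.Agent.H387.AP.T4P13
import Pool.Agent.H387.AP.T5P13
import Pool.Agent.H387.AP.T7P13
import Pool.Agent.H387.AP.T8P13
import Pool.Agent.H387.AP.T9P13
import Pool.Agent.H387.AP.T10P13
import Pool.Agent.H387.AP.T4P17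
import Pool.Agent.H387.AP.T4P19

/-!
# Lower bounds for `λ_{k,p}`, `4 ≤ k`, `7 ≤ p ≤ 19`

`λ_{k,p}` is the exponential growth rate of the largest subsets of `F_p^n` without nontrivial
`k`-term progressions. Each bound comes from an explicit set `S ⊆ F_p^d` (`d = 2` or `3`) that
carries no balanced weight on its `k`-term progressions, found by a local search that decides by
linear programming whether a point can be added to the set.
-/

set_option autoImplicit false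

namespace Pool.Agent.Results.MP_b30443_co.GrowthTable

open Finset

/-- `A ⊆ F_p^n` contains no nontrivial `k`-term progression `x, x+y, …, x+(k-1)y` with `y ≠ 0`. -/
def APFree (k p n : ℕ) (A : Finset (Fin n → ZMod p)) : Prop :=
  ∀ x y : Fin n → ZMod p, (∀ i : ℕ, i < k → x + i • y ∈ A) → y = 0

/-- `r_k(F_p^n)`: the largest size of a subset of `F_p^n` without nontrivial `k`-term
progressions. -/
noncomputable def r (k p n : ℕ) : ℕ :=
  sSup {m : ℕ | ∃ A : Finset (Fin n → ZMod p), APFree k p n A ∧ A.card = m}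

/-- `λ_{k,p} = sup_{n ≥ 1} r_k(F_p^n)^{1/n}`. -/
noncomputable def lam (k p : ℕ) : ℝ :=
  ⨆ n : ℕ, (r k p (n + 1) : ℝ) ^ (1 / ((n : ℝ) + 1))

lemma lam_eq (k p : ℕ) : lam k p = BlockSymmetric.lam k p := rfl

/-- Lower bounds for `λ_{k,p}`. -/
theorem result :
    (130 ≤ lam 4 7 ^ 3 ∧ 164 ≤ lam 5 7 ^ 3) ∧
    (52 ≤ lam 4 11 ^ 2 ∧ 71 ≤ lam 5 11 ^ 2 ∧ 82 ≤ lam 6 11 ^ 2 ∧ 87 ≤ lam 7 11 ^ 2 ∧
      89 ≤ lam 8 11 ^ 2) ∧
    (68 ≤ lam 4 13 ^ 2 ∧ 101 ≤ lam 5 13 ^ 2 ∧ 122 ≤ lam 7 13 ^ 2 ∧ 124 ≤ lam 8 13 ^ 2 ∧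
      128 ≤ lam 9 13 ^ 2 ∧ 131 ≤ lam 10 13 ^ 2) ∧
    105 ≤ lam 4 17 ^ 2 ∧ 128 ≤ lam 4 19 ^ 2 := by
  refine ⟨⟨?_, ?_⟩, ⟨?_, ?_, ?_, ?_, ?_⟩, ⟨?_, ?_, ?_, ?_, ?_, ?_⟩, ?_, ?_⟩
  · exact_mod_cast H387.AP.t4p7_lam
  · exact_mod_cast H387.AP.t5p7_lam
  · exact_mod_cast H387.AP.t4p11_lam
  · exact_mod_cast H387.AP.t5p11_lam
  · exact_mod_cast H387.AP.t6p11_lam
  · exact_mod_cast H387.AP.t7p11_lam
  · exact_mod_cast H387.AP.t8p11_lam
  · exact_mod_cast H387.AP.t4p13_lam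
  · exact_mod_cast H387.AP.t5p13_lam
  · exact_mod_cast H387.AP.t7p13_lam
  · exact_mod_cast H387.AP.t8p13_lam
  · exact_mod_cast H387.AP.t9p13_lam
  · exact_mod_cast H387.AP.t10p13_lam
  · exact_mod_cast H387.AP.t4p17_lam
  · exact_mod_cast H387.AP.t4p19_lam

end Pool.Agent.Results.MP_b30443_co.GrowthTable
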