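import Pool.Agent.N389.RB.AP

set_option autoImplicit false

/-!
# Progression-free sets inside sets of small average sensitivity

Progression-free sets have small relative density inside *every* set `F ⊆ F_p^n`, however sparse,
such that on average only a small multiple of `n` of the changes of one coordinate of a point of `F`
leave `F`; for instance if the indicator function of `F` is a sum of functions of at most `c n`
coordinates.
-/

namespace Pool.Agent.Results.MP_b30443_co.SmallBoundary

open Finset Function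

/-- `A` contains no nontrivial `k`-term progression `x, x + y, …, x + (k - 1) y`. -/
def APFree (k : ℕ) {p n : ℕ} (A : Finset (Fin n → ZMod p)) : Prop :=
  ∀ x y : Fin n → ZMod p, (∀ j : ℕ, j < k → x + j • y ∈ A) → y = 0

/-- `A` contains no nontrivial `k`-term progression whose common difference has all coordinates in
`{0, 1}`. -/
def BinaryAPFree (k : ℕ) {p n : ℕ} (A : Finset (Fin n → ZMod p)) : Prop :=
  ∀ x y : Fin n → ZMod p, (∀ i, y i = 0 ∨ y i = 1) → (∀ j : ℕ, j < k → x + j • y ∈ A) → y = 0

/-- The size of the boundary of `F`: the number of the triples `(x, i, s)`, `x ∈ F`, `i` a coordinate,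
`s ∈ F_p`, such that the point which arises from `x` if `x i` is replaced by `s` is not in `F`. -/
def boundary {p n : ℕ} [NeZero p] (F : Finset (Fin n → ZMod p)) : ℕ :=
  ((F ×ˢ ((univ : Finset (Fin n)) ×ˢ (univ : Finset (ZMod p)))).filter
    fun q => update q.1 q.2.1 q.2.2 ∉ F).card

/-- The indicator function of `F` is a sum of real functions each of which depends on at most `D`
coordinates only. -/
def DegreeLe (D : ℕ) {p n : ℕ} (F : Finset (Fin n → ZMod p)) : Prop :=
  ∃ (I : ℕ) (g : Fin I → (Fin n → ZMod p) → ℝ) (T : Fin I → Finset (Fin n)),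
    (∀ t, (T t).card ≤ D ∧ ∀ x y : Fin n → ZMod p, (∀ i ∈ T t, x i = y i) → g t x = g t y) ∧
    ∀ x, ∑ t, g t x = if x ∈ F then 1 else 0

/-- **Theorem.** Let `p` be a prime number.
(1) Let `1 ≤ m ≤ n`, let `r` be such that sets without `k`-term progressions in `F_p^m` have at most
`r` elements, and let the boundary of `F ⊆ F_p^n` be at most `ε p ⌊n / m⌋ |F|`. Then every
`A ⊆ F_p^n` without `k`-term progressions satisfies `|A ∩ F| ≤ (r / p^m + ε) |F|`.
(2) For every `δ > 0` there are `c > 0` and `N₀` such that for all `k`, `n ≥ N₀`, all `F ⊆ F_p^n` with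
boundary at most `c n |F|` (however small `|F|` is) and all `A ⊆ F_p^n` without `k`-term progressions
with nonzero common difference in `{0, 1}^n` (in particular for all `A` without `k`-term
progressions) `|A ∩ F| ≤ δ |F|`.
(3) If the indicator function of `F` is a sum of real functions of at most `D` coordinates, then the
boundary of `F` is at most `p D |F|`; so (2) applies to `F` if `p D ≤ c n`.
(4) The range in (2) is sharp up to `c`: for `2 ≤ k ≤ p` and all `n` some nonempty `F ⊆ F_p^n` with
boundary `(p - k + 1) n |F|` contains no `k`-term progressions. -/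
theorem result {p : ℕ} [Fact p.Prime] :
    (∀ (k m n r : ℕ) (ε : ℝ), 1 ≤ m → m ≤ n →
      (∀ B : Finset (Fin m → ZMod p), APFree k B → B.card ≤ r) →
      ∀ F A : Finset (Fin n → ZMod p), (boundary F : ℝ) ≤ ε * (p * (n / m : ℕ)) * F.card →
        APFree k A → ((A ∩ F).card : ℝ) ≤ (r / (p : ℝ) ^ m + ε) * F.card) ∧
    (∀ δ : ℝ, 0 < δ → ∃ c : ℝ, 0 < c ∧ ∃ N₀ : ℕ, ∀ k n : ℕ, N₀ ≤ n →
      ∀ F A : Finset (Fin n → ZMod p), (boundary F : ℝ) ≤ c * n * F.card → BinaryAPFree k A →
        ((A ∩ F).card : ℝ) ≤ δ * F.card) ∧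
    (∀ (n D : ℕ) (F : Finset (Fin n → ZMod p)), DegreeLe D F → boundary F ≤ p * D * F.card) ∧
    (∀ k n : ℕ, 2 ≤ k → k ≤ p → ∃ F : Finset (Fin n → ZMod p), F.Nonempty ∧ APFree k F ∧
      boundary F = (p - k + 1) * n * F.card) := by
  have hp : p.Prime := Fact.out
  refine ⟨?_, ?_, ?_, ?_⟩
  · intro k m n r ε hm hmn hr F A hF hA
    exact Pool.Agent.N389.RB.relative (k := k) hm ((Nat.one_le_div_iff (by omega)).2 hmn)
      (fun _ => True) (fun _ => True) (fun _ _ _ => trivial)
      (fun B hB => hr B fun x y h => hB x y trivial h) F A ε hF (fun x y _ h => hA x y h)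
  · intro δ hδ
    exact Pool.Agent.N389.RB.relative_c hp δ hδ
  · rintro n D F ⟨I, g, T, hg, hF⟩
    have h := Pool.Agent.N389.RB.bdy_le F D (by
      have h1 : (fun x => if x ∈ F then (1 : ℝ) else 0) = ∑ t, g t := by
        funext x
        rw [Finset.sum_apply, hF]
      rw [h1]
      refine Submodule.sum_mem _ fun t _ => Submodule.subset_span ⟨T t, ?_, (hg t).2⟩
      rw [inter_univ]
      exact Nat.lt_succ_of_le (hg t).1)
    rw [ZMod.card] at h
    exact h
  · intro k n hk hkp
    obtain ⟨F, h1, h2, h3⟩ := Pool.Agent.N389.RB.box k n hk hkp hp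
    exact ⟨F, h1, h2, h3⟩

end Pool.Agent.Results.MP_b30443_co.SmallBoundary
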